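import Mathlib

set_option autoImplicit false

/-!
# Linear forests are the induced subgraphs of paths
-/

namespace Pool.Agent.ADM

open SimpleGraph

/-- A linear forest: no cycle, and every vertex has at most two neighbours (so every component
is a path). -/
def IsLinearForest {V : Type*} (F : SimpleGraph V) : Prop :=
  F.IsAcyclic ∧ ∀ v : V, (F.neighborSet v).ncard ≤ 2

lemma pathGraph_isAcyclic (N : ℕ) : (pathGraph N).IsAcyclic := by
  classical
  intro u w hw
  obtain ⟨z, hz, hmax⟩ : ∃ z ∈ w.support, ∀ y ∈ w.support, y.val ≤ z.val := by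
    have hne : w.support.toFinset.Nonempty := ⟨u, by simp⟩
    obtain ⟨z, hz, hm⟩ := Finset.exists_max_image w.support.toFinset (fun x => x.val) hne
    exact ⟨z, by simpa using hz, fun y hy => hm y (by simpa using hy)⟩
  have hc := hw.rotate hz
  have hnil : ¬ (w.rotate z hz).Nil := hc.not_nil
  have h1 : (pathGraph N).Adj z (w.rotate z hz).snd := Walk.adj_snd hnil
  have h2 : (pathGraph N).Adj (w.rotate z hz).penultimate z := Walk.adj_penultimate hnil
  have m1 : (w.rotate z hz).snd ∈ w.support := by
    rw [← Walk.mem_support_rotate_iff w z hz]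
    exact Walk.getVert_mem_support _ _
  have m2 : (w.rotate z hz).penultimate ∈ w.support := by
    rw [← Walk.mem_support_rotate_iff w z hz]
    exact Walk.getVert_mem_support _ _
  have b1 := hmax _ m1
  have b2 := hmax _ m2
  rw [pathGraph_adj] at h1 h2
  apply hc.snd_ne_penultimate
  apply Fin.ext
  omega

lemma linearForest_of_path {V : Type*} [Finite V] {F : SimpleGraph V} {N : ℕ}
    (h : F.IsIndContained (pathGraph N)) : IsLinearForest F := by
  classical
  obtain ⟨f⟩ := h
  refine ⟨IsAcyclic.embedding f (pathGraph_isAcyclic N), ?_⟩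
  intro v
  have hsub : (fun x => (f x).val) '' (F.neighborSet v) ⊆
      ({(f v).val + 1, (f v).val - 1} : Set ℕ) := by
    rintro _ ⟨x, hx, rfl⟩
    have hadj : (pathGraph N).Adj (f v) (f x) := f.map_rel_iff.mpr hx
    rw [pathGraph_adj] at hadj
    simp only [Set.mem_insert_iff, Set.mem_singleton_iff]
    omega
  have hinj : Set.InjOn (fun x => (f x).val) (F.neighborSet v) := by
    intro x _ y _ hxy
    exact f.injective (Fin.ext hxy)
  have h1 := hinj.ncard_image
  rw [← h1]
  refine le_trans (Set.ncard_le_ncard hsub (Set.toFinite _)) ?_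
  refine le_trans (Set.ncard_insert_le _ _) ?_
  rw [Set.ncard_singleton]

/-- Extending a placement on the line by a vertex with exactly one neighbour. -/
lemma ext_right {V : Type*} (F : SimpleGraph V) (u w : V) (hadj : F.Adj u w)
    (huniq : ∀ x, F.Adj u x → x = w) (g : V → ℤ)
    (hinj : ∀ x y, x ≠ u → y ≠ u → g x = g y → x = y)
    (hg : ∀ x y, x ≠ u → y ≠ u → (F.Adj x y ↔ g x = g y + 1 ∨ g y = g x + 1))
    (hfree : ∀ x, x ≠ u → g x ≠ g w + 1) :
    ∃ f : V → ℤ, Function.Injective f ∧ ∀ x y, F.Adj x y ↔ f x = f y + 1 ∨ f y = f x + 1 := by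
  classical
  have hwu : w ≠ u := hadj.ne.symm
  let f : V → ℤ := fun x => if x = u then g w + 1 else if g x ≤ g w then g x else g x + 2
  have fu : f u = g w + 1 := by simp [f]
  have f1 : ∀ x, x ≠ u → g x ≤ g w → f x = g x := by
    intro x hx hx2
    simp [f, hx, hx2]
  have f2 : ∀ x, x ≠ u → g w < g x → f x = g x + 2 := by
    intro x hx hx2
    simp [f, hx, not_le.mpr hx2]
  have hu : ∀ x, x ≠ u → f x ≠ f u := by
    intro x hx
    rcases le_or_gt (g x) (g w) with h | h
    · rw [f1 x hx h, fu]; omega
    · rw [f2 x hx h, fu]
      omega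
  refine ⟨f, ?_, ?_⟩
  · intro x y hxy
    by_cases hx : x = u
    · by_cases hy : y = u
      · rw [hx, hy]
      · rw [hx] at hxy
        exact absurd hxy.symm (hu y hy)
    · by_cases hy : y = u
      · rw [hy] at hxy
        exact absurd hxy (hu x hx)
      · apply hinj x y hx hy
        rcases le_or_gt (g x) (g w) with h | h <;> rcases le_or_gt (g y) (g w) with h' | h'
        · rw [f1 x hx h, f1 y hy h'] at hxy; exact hxy
        · rw [f1 x hx h, f2 y hy h'] at hxy; omega
        · rw [f2 x hx h, f1 y hy h'] at hxy; omega
        · rw [f2 x hx h, f2 y hy h'] at hxy; omega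
  · have hcase : ∀ y, y ≠ u → (F.Adj u y ↔ f u = f y + 1 ∨ f y = f u + 1) := by
      intro y hy
      constructor
      · intro h
        have := huniq y h
        subst this
        rw [f1 y hy le_rfl, fu]
        left; rfl
      · intro h
        have hgy : g y = g w := by
          rcases le_or_gt (g y) (g w) with h' | h'
          · rw [f1 y hy h', fu] at h
            omega
          · have := hfree y hy
            rw [f2 y hy h', fu] at h
            omega
        rw [hinj y w hy hwu hgy]
        exact hadj
    intro x y
    by_cases hx : x = u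
    · by_cases hy : y = u
      · rw [hx, hy]
        constructor
        · intro h; exact absurd h (F.loopless.irrefl _)
        · intro h; omega
      · rw [hx]; exact hcase y hy
    · by_cases hy : y = u
      · rw [hy, F.adj_comm, hcase x hx]
        tauto
      · rw [hg x y hx hy]
        have e1 := hfree x hx
        have e2 := hfree y hy
        rcases le_or_gt (g x) (g w) with h | h <;> rcases le_or_gt (g y) (g w) with h' | h'
        · rw [f1 x hx h, f1 y hy h']
        · rw [f1 x hx h, f2 y hy h']; omega
        · rw [f2 x hx h, f1 y hy h']; omega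
        · rw [f2 x hx h, f2 y hy h']; omega

/-- The same with the place to the left of `w` free. -/
lemma ext_left {V : Type*} (F : SimpleGraph V) (u w : V) (hadj : F.Adj u w)
    (huniq : ∀ x, F.Adj u x → x = w) (g : V → ℤ)
    (hinj : ∀ x y, x ≠ u → y ≠ u → g x = g y → x = y)
    (hg : ∀ x y, x ≠ u → y ≠ u → (F.Adj x y ↔ g x = g y + 1 ∨ g y = g x + 1))
    (hfree : ∀ x, x ≠ u → g x + 1 ≠ g w) :
    ∃ f : V → ℤ, Function.Injective f ∧ ∀ x y, F.Adj x y ↔ f x = f y + 1 ∨ f y = f x + 1 := by
  refine ext_right F u w hadj huniq (fun x => - g x) ?_ ?_ ?_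
  · intro x y hx hy h
    exact hinj x y hx hy (by simpa using h)
  · intro x y hx hy
    rw [hg x y hx hy]
    constructor
    · rintro (h | h)
      · right; omega
      · left; omega
    · rintro (h | h)
      · right; omega
      · left; omega
  · intro x hx h
    exact hfree x hx (by omega)

/-- A finite nonempty acyclic graph has a vertex with at most one neighbour. -/
lemma exists_leaf {V : Type*} [Fintype V] [Nonempty V] {F : SimpleGraph V} (h : F.IsAcyclic) :
    ∃ u : V, ∀ x y, F.Adj u x → F.Adj u y → x = y := by
  classical
  let P : ℕ → Prop := fun k => ∃ (a b : V) (p : F.Walk a b), p.IsPath ∧ p.length = k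
  have h0 : P 0 := ⟨Classical.arbitrary V, _, Walk.nil, Walk.IsPath.nil, rfl⟩
  have hspec : P (Nat.findGreatest P (Fintype.card V)) :=
    Nat.findGreatest_spec (Nat.zero_le _) h0
  obtain ⟨a, b, p, hp, hlen⟩ := hspec
  refine ⟨a, ?_⟩
  have key : ∀ x, F.Adj a x → x = p.snd := by
    intro x hx
    by_cases hs : x ∈ p.support
    · exact h.eq_snd_of_adj_start hp hx hs
    · exfalso
      have hp2 : (Walk.cons hx.symm p).IsPath := hp.cons hs
      have hlt := hp2.length_lt
      have hle : (Walk.cons hx.symm p).length ≤ Nat.findGreatest P (Fintype.card V) :=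
        Nat.le_findGreatest (le_of_lt hlt) ⟨x, b, _, hp2, rfl⟩
      rw [Walk.length_cons, hlen] at hle
      omega
  intro x y hx hy
  rw [key x hx, key y hy]

/-- A finite linear forest can be placed on the integers. -/
lemma exists_placement (n : ℕ) : ∀ {V : Type} [Fintype V] (F : SimpleGraph V),
    Fintype.card V = n → IsLinearForest F →
    ∃ f : V → ℤ, Function.Injective f ∧ ∀ x y, F.Adj x y ↔ f x = f y + 1 ∨ f y = f x + 1 := by
  classical
  induction n with
  | zero =>
    intro V _ F hcard hF
    have hemp : IsEmpty V := Fintype.card_eq_zero_iff.mp hcard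
    exact ⟨fun _ => 0, fun x => (hemp.false x).elim, fun x => (hemp.false x).elim⟩
  | succ n ih =>
    intro V _ F hcard hF
    have hne : Nonempty V := Fintype.card_pos_iff.mp (by omega)
    obtain ⟨u, hu⟩ := exists_leaf hF.1
    have hcard' : Fintype.card {x : V // x ∈ ({u}ᶜ : Set V)} = n := by
      rw [Fintype.card_compl_set]
      simp [hcard]
    have hF' : IsLinearForest (F.induce ({u}ᶜ : Set V)) := by
      refine ⟨hF.1.induce _, ?_⟩
      intro v
      refine le_trans ?_ (hF.2 v.1)
      refine Set.ncard_le_ncard_of_injOn (fun x => x.1) ?_ ?_ (Set.toFinite _)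
      · intro x hx
        exact hx
      · intro x _ y _ hxy
        exact Subtype.ext hxy
    obtain ⟨g', hinj', hg'⟩ := ih (F.induce ({u}ᶜ : Set V)) hcard' hF'
    let g : V → ℤ := fun x => if h : x ∈ ({u}ᶜ : Set V) then g' ⟨x, h⟩ else 0
    have hgx : ∀ x (h : x ≠ u), g x = g' ⟨x, h⟩ := by
      intro x h
      have : x ∈ ({u}ᶜ : Set V) := h
      simp only [g]
      rw [dif_pos this]
    have hinj : ∀ x y, x ≠ u → y ≠ u → g x = g y → x = y := by
      intro x y hx hy hxy
      rw [hgx x hx, hgx y hy] at hxy
      have := hinj' hxy
      simpa using this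
    have hg : ∀ x y, x ≠ u → y ≠ u → (F.Adj x y ↔ g x = g y + 1 ∨ g y = g x + 1) := by
      intro x y hx hy
      rw [hgx x hx, hgx y hy, ← hg']
      rfl
    by_cases hiso : ∃ w, F.Adj u w
    · obtain ⟨w, hw⟩ := hiso
      have hwu : w ≠ u := hw.ne.symm
      have huniq : ∀ x, F.Adj u x → x = w := fun x hx => hu x w hx hw
      by_cases hfree : ∀ x, x ≠ u → g x ≠ g w + 1
      · exact ext_right F u w hw huniq g hinj hg hfree
      · by_cases hfree2 : ∀ x, x ≠ u → g x + 1 ≠ g w
        · exact ext_left F u w hw huniq g hinj hg hfree2
        · exfalso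
          push Not at hfree hfree2
          obtain ⟨x, hx, hx2⟩ := hfree
          obtain ⟨y, hy, hy2⟩ := hfree2
          have a1 : F.Adj w x := (hg w x hwu hx).mpr (Or.inr hx2)
          have a2 : F.Adj w y := (hg w y hwu hy).mpr (Or.inl hy2.symm)
          have hxy : x ≠ y := by
            rintro rfl
            omega
          have hsub : ({u, x, y} : Finset V) ⊆ (F.neighborSet w).toFinset := by
            intro t ht
            rw [Set.mem_toFinset]
            simp only [Finset.mem_insert, Finset.mem_singleton] at ht
            rcases ht with rfl | rfl | rfl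
            · exact hw.symm
            · exact a1
            · exact a2
          have h3 : ({u, x, y} : Finset V).card = 3 := by
            rw [Finset.card_eq_three]
            exact ⟨u, x, y, hx.symm, hy.symm, hxy, rfl⟩
          have h4 := Finset.card_le_card hsub
          rw [h3, ← Set.ncard_eq_toFinset_card'] at h4
          have := hF.2 w
          omega
    · push Not at hiso
      obtain ⟨M, hM⟩ : ∃ M : ℤ, ∀ x, g x ≤ M := by
        obtain ⟨M, hM⟩ := (Set.finite_range g).bddAbove
        exact ⟨M, fun x => hM ⟨x, rfl⟩⟩
      let f : V → ℤ := fun x => if x = u then M + 2 else g x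
      have fu : f u = M + 2 := by simp [f]
      have fx : ∀ x, x ≠ u → f x = g x := by
        intro x hx
        simp [f, hx]
      refine ⟨f, ?_, ?_⟩
      · intro x y hxy
        by_cases hx : x = u
        · by_cases hy : y = u
          · rw [hx, hy]
          · rw [hx, fu, fx y hy] at hxy
            have := hM y
            omega
        · by_cases hy : y = u
          · rw [hy, fu, fx x hx] at hxy
            have := hM x
            omega
          · rw [fx x hx, fx y hy] at hxy
            exact hinj x y hx hy hxy
      · intro x y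
        by_cases hx : x = u
        · by_cases hy : y = u
          · rw [hx, hy]
            constructor
            · intro h; exact absurd h (F.loopless.irrefl _)
            · intro h; omega
          · rw [hx, fu, fx y hy]
            constructor
            · intro h; exact absurd h (hiso y)
            · intro h
              have := hM y
              omega
        · by_cases hy : y = u
          · rw [hy, fu, fx x hx]
            constructor
            · intro h; exact absurd h.symm (hiso x)
            · intro h
              have := hM x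
              omega
          · rw [fx x hx, fx y hy]
            exact hg x y hx hy

/-- Finite linear forests are exactly the induced subgraphs of paths. -/
theorem linearForest_iff {V : Type} [Fintype V] (F : SimpleGraph V) :
    IsLinearForest F ↔ ∃ N : ℕ, F.IsIndContained (pathGraph N) := by
  constructor
  · intro h
    obtain ⟨f, hinj, hf⟩ := exists_placement _ F rfl h
    obtain ⟨M, hM⟩ := (Set.finite_range f).bddAbove
    obtain ⟨L, hL⟩ := (Set.finite_range f).bddBelow
    have hM' : ∀ x, f x ≤ M := fun x => hM ⟨x, rfl⟩
    have hL' : ∀ x, L ≤ f x := fun x => hL ⟨x, rfl⟩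
    refine ⟨(M - L).toNat + 1, ⟨⟨⟨fun x => ⟨(f x - L).toNat, ?_⟩, ?_⟩, ?_⟩⟩⟩
    · have := hM' x
      have := hL' x
      omega
    · intro x y hxy
      apply hinj
      have h1 : (f x - L).toNat = (f y - L).toNat := by simpa using hxy
      have := hL' x
      have := hL' y
      omega
    · intro x y
      show (pathGraph ((M - L).toNat + 1)).Adj ⟨(f x - L).toNat, _⟩ ⟨(f y - L).toNat, _⟩ ↔ _
      rw [pathGraph_adj, hf]
      show ((f x - L).toNat + 1 = (f y - L).toNat ∨ (f y - L).toNat + 1 = (f x - L).toNat) ↔ _
      have := hL' x
      have := hL' y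
      omega
  · rintro ⟨N, hN⟩
    exact linearForest_of_path hN

end Pool.Agent.ADM
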