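import Mathlib

set_option autoImplicit false

/-!
# Shortest closed walks of odd length
-/

namespace Pool.Agent.ADM

open SimpleGraph

/-- `w` is a shortest closed walk of odd length. -/
def MinOdd {V : Type*} {G : SimpleGraph V} {u : V} (w : G.Walk u u) : Prop :=
  Odd w.length ∧ ∀ (v : V) (q : G.Walk v v), Odd q.length → w.length ≤ q.length

lemma exists_minOdd {V : Type*} {G : SimpleGraph V} (h : ¬ G.Colorable 2) :
    ∃ (u : V) (w : G.Walk u u), MinOdd w := by
  classical
  have hex : ∃ k : ℕ, ∃ (u : V) (w : G.Walk u u), w.length = k ∧ Odd k := by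
    rw [two_colorable_iff_forall_loop_even] at h
    push Not at h
    obtain ⟨u, w, hw⟩ := h
    exact ⟨w.length, u, w, rfl, Nat.not_even_iff_odd.mp hw⟩
  obtain ⟨u, w, hwk, hodd⟩ := Nat.find_spec hex
  refine ⟨u, w, by rw [hwk]; exact hodd, ?_⟩
  intro v q hq
  rw [hwk]
  exact Nat.find_min' hex ⟨v, q, rfl, hq⟩

lemma MinOdd.rotate {V : Type*} [DecidableEq V] {G : SimpleGraph V} {u : V} {w : G.Walk u u}
    (hw : MinOdd w) (z : V) (hz : z ∈ w.support) : MinOdd (w.rotate z hz) := by
  refine ⟨by rw [Walk.length_rotate]; exact hw.1, ?_⟩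
  intro v q hq
  rw [Walk.length_rotate]
  exact hw.2 v q hq

/-- Splitting a closed walk of odd length at two positions joined by a walk of length `c`. -/
lemma MinOdd.split {V : Type*} {G : SimpleGraph V} {u : V} {w : G.Walk u u}
    (hw : MinOdd w) {i j c : ℕ} (hij : i < j) (hjk : j < w.length)
    (q : G.Walk (w.getVert i) (w.getVert j)) (hq : q.length = c) (hc : c ≤ 1) :
    (c = 1 ∧ j = i + 1) ∨ (c = 1 ∧ i = 0 ∧ j + 1 = w.length) := by
  have hodd := hw.1
  have L1 : ∃ p : G.Walk u u, p.length = i + (c + (w.length - j)) := by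
    refine ⟨(w.take i).append (q.append (w.drop j)), ?_⟩
    rw [Walk.length_append, Walk.length_append, Walk.take_length, Walk.drop_length, hq]
    have : min i w.length = i := by omega
    rw [this]
  have L2 : ∃ p : G.Walk (w.getVert i) (w.getVert i), p.length = (j - i) + c := by
    have e : (w.drop i).getVert (j - i) = w.getVert j := by
      rw [Walk.drop_getVert]; congr 1; omega
    refine ⟨(((w.drop i).take (j - i)).copy rfl e).append q.reverse, ?_⟩
    rw [Walk.length_append, Walk.length_copy, Walk.length_reverse, hq,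
      Walk.take_length, Walk.drop_length]
    have : min (j - i) (w.length - i) = j - i := by omega
    rw [this]
  obtain ⟨q1, h1⟩ := L1
  obtain ⟨q2, h2⟩ := L2
  rcases Nat.even_or_odd q1.length with he | ho
  · have ho2 : Odd q2.length := by
      rw [h1] at he
      rw [h2]
      rw [Nat.odd_iff] at hodd ⊢
      rw [Nat.even_iff] at he
      omega
    have h3 := hw.2 _ q2 ho2
    rw [h2] at h3
    right
    omega
  · have h3 := hw.2 _ q1 ho
    rw [h1] at h3
    left
    omega

lemma MinOdd.chord {V : Type*} {G : SimpleGraph V} {u : V} {w : G.Walk u u}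
    (hw : MinOdd w) {i j : ℕ} (hij : i < j) (hjk : j < w.length)
    (h : G.Adj (w.getVert i) (w.getVert j)) : j = i + 1 ∨ (i = 0 ∧ j + 1 = w.length) := by
  rcases hw.split hij hjk (Walk.cons h Walk.nil) rfl (by simp) with h1 | h1
  · exact Or.inl h1.2
  · exact Or.inr h1.2

lemma MinOdd.ne {V : Type*} {G : SimpleGraph V} {u : V} {w : G.Walk u u}
    (hw : MinOdd w) {i j : ℕ} (hij : i < j) (hjk : j < w.length) :
    w.getVert i ≠ w.getVert j := by
  intro h
  have hl : ((Walk.nil : G.Walk (w.getVert i) (w.getVert i)).copy rfl h).length = 0 := by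
    rw [Walk.length_copy, Walk.length_nil]
  rcases hw.split hij hjk _ hl (by omega) with h1 | h1
  · exact absurd h1.1 (by norm_num)
  · exact absurd h1.1 (by norm_num)

/-- A shortest closed walk of odd length contains long induced paths. -/
lemma MinOdd.path {V : Type*} {G : SimpleGraph V} {u : V} {w : G.Walk u u}
    (hw : MinOdd w) {N : ℕ} (hN : N < w.length) : (pathGraph N).IsIndContained G := by
  refine ⟨⟨⟨fun i => w.getVert i.val, ?_⟩, ?_⟩⟩
  · intro i j hij
    rcases lt_trichotomy i.val j.val with h | h | h
    · exact absurd hij (hw.ne h (by omega))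
    · exact Fin.ext h
    · exact absurd hij.symm (hw.ne h (by omega))
  · intro i j
    show G.Adj (w.getVert i.val) (w.getVert j.val) ↔ _
    rw [pathGraph_adj]
    constructor
    · intro h
      rcases lt_trichotomy i.val j.val with h1 | h1 | h1
      · rcases hw.chord h1 (by omega) h with h2 | h2
        · exact Or.inl h2.symm
        · omega
      · rw [h1] at h
        exact absurd h (G.loopless.irrefl _)
      · rcases hw.chord h1 (by omega) h.symm with h2 | h2
        · exact Or.inr h2.symm
        · omega
    · rintro (h | h)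
      · rw [← h]
        exact w.adj_getVert_succ (by omega)
      · rw [← h]
        exact (w.adj_getVert_succ (by omega)).symm

/-- Every graph that is not 2-colourable has an induced subgraph that is not 2-colourable,
all of whose 2-colourable induced subgraphs are induced subgraphs of paths. -/
theorem exists_odd_hole {V : Type*} (G : SimpleGraph V) (h : ¬ G.Colorable 2) :
    ∃ s : Set V, ¬ (G.induce s).Colorable 2 ∧ (G.induce s).Colorable 3 ∧
      ∀ {W : Type} (F : SimpleGraph W), F.Colorable 2 → F.IsIndContained (G.induce s) →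
        ∃ N : ℕ, F.IsIndContained (pathGraph N) := by
  classical
  obtain ⟨u, w, hw⟩ := exists_minOdd h
  have hwpos : 0 < w.length := hw.1.pos
  have pos : ∀ (z : V) (w' : G.Walk z z), MinOdd w' → ∀ x ∈ w'.support,
      ∃ i : ℕ, i < w'.length ∧ w'.getVert i = x := by
    intro z w' hw' x hx
    obtain ⟨n, hn, hnk⟩ := (Walk.mem_support_iff_exists_getVert).mp hx
    rcases Nat.lt_or_ge n w'.length with hlt | hge
    · exact ⟨n, hlt, hn⟩
    · have : n = w'.length := le_antisymm hnk hge
      refine ⟨0, hw'.1.pos, ?_⟩
      rw [Walk.getVert_zero, ← hn, this, Walk.getVert_length]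
  refine ⟨{v | v ∈ w.support}, ?_, ?_, ?_⟩
  · intro hcol
    rw [two_colorable_iff_forall_loop_even] at hcol
    have := hcol _ (w.induce {v | v ∈ w.support} (fun x hx => hx))
    rw [← Walk.length_map (Embedding.induce {v | v ∈ w.support}).toHom, Walk.map_induce] at this
    exact (Nat.not_even_iff_odd.mpr hw.1) this
  · have hidx : ∀ x : {v | v ∈ w.support}, ∃ i : ℕ, i < w.length ∧ w.getVert i = x.1 :=
      fun x => pos u w hw x.1 x.2
    choose idx hidx1 hidx2 using hidx
    refine ⟨Coloring.mk (fun x => if idx x = 0 then (2 : Fin 3) else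
      if idx x % 2 = 0 then 0 else 1) ?_⟩
    have key : ∀ x y : {v | v ∈ w.support}, idx x < idx y → G.Adj x.1 y.1 →
        (if idx x = 0 then (2 : Fin 3) else if idx x % 2 = 0 then 0 else 1) ≠
        (if idx y = 0 then (2 : Fin 3) else if idx y % 2 = 0 then 0 else 1) := by
      intro x y hlt hadj
      rw [← hidx2 x, ← hidx2 y] at hadj
      rcases hw.chord hlt (hidx1 y) hadj with h1 | h1
      · rw [h1]
        by_cases h0 : idx x = 0
        · simp [h0]
        · rcases Nat.mod_two_eq_zero_or_one (idx x) with h2 | h2
          · have h3 : (idx x + 1) % 2 = 1 := by omega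
            simp [h0, h2, h3]
          · have h3 : (idx x + 1) % 2 = 0 := by omega
            simp [h0, h2, h3]
      · have h0 : idx y ≠ 0 := by omega
        rcases Nat.mod_two_eq_zero_or_one (idx y) with h2 | h2
        · simp [h1.1, h0, h2]
        · simp [h1.1, h0, h2]
    intro x y hxy
    have hadj : G.Adj x.1 y.1 := hxy
    rcases lt_trichotomy (idx x) (idx y) with h1 | h1 | h1
    · exact key x y h1 hadj
    · have : x.1 = y.1 := by rw [← hidx2 x, ← hidx2 y, h1]
      rw [this] at hadj
      exact absurd hadj (G.loopless.irrefl _)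
    · exact (key y x h1 hadj.symm).symm
  · intro W F hF ⟨f⟩
    have hns : ∃ z : {v | v ∈ w.support}, ∀ a : W, f a ≠ z := by
      by_contra hcon
      push Not at hcon
      have hnc : ¬ (G.induce {v | v ∈ w.support}).Colorable 2 := by
        intro hcol
        rw [two_colorable_iff_forall_loop_even] at hcol
        have := hcol _ (w.induce {v | v ∈ w.support} (fun x hx => hx))
        rw [← Walk.length_map (Embedding.induce {v | v ∈ w.support}).toHom,
          Walk.map_induce] at this
        exact (Nat.not_even_iff_odd.mpr hw.1) this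
      apply hnc
      choose g hg using hcon
      obtain ⟨c⟩ := hF
      refine ⟨Coloring.mk (fun x => c (g x)) ?_⟩
      intro x y hxy
      apply c.valid
      rw [← hg x, ← hg y] at hxy
      exact f.map_rel_iff.mp hxy
    obtain ⟨z, hz⟩ := hns
    set w' := w.rotate z.1 z.2 with hw'
    have hmin : MinOdd w' := hw.rotate z.1 z.2
    have hidx : ∀ a : W, ∃ i : ℕ, 0 < i ∧ i < w'.length ∧ w'.getVert i = (f a).1 := by
      intro a
      obtain ⟨i, hi, hix⟩ := pos z.1 w' hmin (f a).1 (by
        rw [hw', Walk.mem_support_rotate_iff]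
        exact (f a).2)
      refine ⟨i, ?_, hi, hix⟩
      rcases Nat.eq_zero_or_pos i with h0 | h0
      · exfalso
        rw [h0, Walk.getVert_zero] at hix
        exact hz a (Subtype.ext hix.symm)
      · exact h0
    choose idx hidx0 hidx1 hidx2 using hidx
    refine ⟨w'.length, ⟨⟨⟨fun a => ⟨idx a, hidx1 a⟩, ?_⟩, ?_⟩⟩⟩
    · intro a b hab
      have h1 : idx a = idx b := by simpa using hab
      apply f.injective
      apply Subtype.ext
      rw [← hidx2 a, ← hidx2 b, h1]
    · intro a b
      show (pathGraph w'.length).Adj ⟨idx a, hidx1 a⟩ ⟨idx b, hidx1 b⟩ ↔ F.Adj a b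
      rw [pathGraph_adj, ← f.map_rel_iff]
      show (idx a + 1 = idx b ∨ idx b + 1 = idx a) ↔ G.Adj (f a).1 (f b).1
      rw [← hidx2 a, ← hidx2 b]
      constructor
      · rintro (h1 | h1)
        · rw [← h1]
          exact w'.adj_getVert_succ (by have := hidx1 b; omega)
        · rw [← h1]
          exact (w'.adj_getVert_succ (by have := hidx1 a; omega)).symm
      · intro hadj
        rcases lt_trichotomy (idx a) (idx b) with h1 | h1 | h1
        · rcases hmin.chord h1 (hidx1 b) hadj with h2 | h2
          · exact Or.inl h2.symm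
          · have := hidx0 a
            omega
        · rw [h1] at hadj
          exact absurd hadj (G.loopless.irrefl _)
        · rcases hmin.chord h1 (hidx1 a) hadj.symm with h2 | h2
          · exact Or.inr h2.symm
          · have := hidx0 b
            omega

end Pool.Agent.ADM
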