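import Mathlib

set_option autoImplicit false

/-!
# Shift graphs of tuples: large chromatic number, no short closed walks of odd length
-/

namespace Pool.Agent.ADM

open SimpleGraph

/-- The vertices: strictly increasing tuples of length `m + 1` with entries in `Fin n`. -/
abbrev Tup (m n : ℕ) : Type := {x : Fin (m + 1) → Fin n // StrictMono x}

/-- `y` is the shift of `x`. -/
def Sh {m n : ℕ} (x y : Tup m n) : Prop :=
  ∃ z : Fin (m + 2) → Fin n, StrictMono z ∧ Fin.init z = x.1 ∧ Fin.tail z = y.1

/-- The shift graph on tuples. -/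
def shift (m n : ℕ) : SimpleGraph (Tup m n) := SimpleGraph.fromRel Sh

lemma Sh.lt {m n : ℕ} {x y : Tup m n} (h : Sh x y) : x.1 0 < y.1 0 := by
  obtain ⟨z, hz, hx, hy⟩ := h
  rw [← hx, ← hy]
  exact hz (by simp)

lemma Sh.ne {m n : ℕ} {x y : Tup m n} (h : Sh x y) : x ≠ y := by
  rintro rfl
  exact lt_irrefl _ h.lt

lemma shift_adj {m n : ℕ} {x y : Tup m n} : (shift m n).Adj x y ↔ Sh x y ∨ Sh y x := by
  unfold shift
  rw [SimpleGraph.fromRel_adj]
  constructor
  · exact fun h => h.2
  · intro h
    refine ⟨?_, h⟩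
    rcases h with h | h
    · exact h.ne
    · exact h.ne.symm

lemma Sh.eq {m n : ℕ} {x y : Tup m n} (h : Sh x y) (j : ℕ) (hj : j + 1 < m + 1) :
    x.1 ⟨j + 1, hj⟩ = y.1 ⟨j, by omega⟩ := by
  obtain ⟨z, hz, hx, hy⟩ := h
  rw [← hx, ← hy]
  rfl

/-- Following a walk: after `a` shifts and `b` inverse shifts the common window is preserved. -/
lemma walk_window {m n : ℕ} {x y : Tup m n} (p : (shift m n).Walk x y) :
    ∃ a b : ℕ, a + b = p.length ∧ ∀ (i : ℕ) (_ : i + p.length < m + 1),
      ∃ (ha : a + i < m + 1) (hb : b + i < m + 1), x.1 ⟨a + i, ha⟩ = y.1 ⟨b + i, hb⟩ := by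
  induction p with
  | nil => exact ⟨0, 0, rfl, fun i h => ⟨by simpa using h, by simpa using h, rfl⟩⟩
  | @cons u v w hadj q ih =>
    obtain ⟨a, b, hab, hw⟩ := ih
    rw [shift_adj] at hadj
    rcases hadj with h1 | h1
    · refine ⟨a + 1, b, by rw [Walk.length_cons]; omega, ?_⟩
      intro i hi
      rw [Walk.length_cons] at hi
      obtain ⟨ha, hb, he⟩ := hw i (by omega)
      refine ⟨by omega, hb, ?_⟩
      rw [← he, ← h1.eq (a + i) (by omega)]
      have e1 : (⟨a + 1 + i, by omega⟩ : Fin (m + 1)) = ⟨a + i + 1, by omega⟩ := by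
        ext; simp; omega
      rw [e1]
    · refine ⟨a, b + 1, by rw [Walk.length_cons]; omega, ?_⟩
      intro i hi
      rw [Walk.length_cons] at hi
      obtain ⟨ha, hb, he⟩ := hw (i + 1) (by omega)
      refine ⟨by omega, by omega, ?_⟩
      rw [← h1.eq (a + i) (by omega)]
      have e1 : (⟨a + i + 1, by omega⟩ : Fin (m + 1)) = ⟨a + (i + 1), ha⟩ := by
        ext; simp; omega
      have e2 : (⟨b + 1 + i, by omega⟩ : Fin (m + 1)) = ⟨b + (i + 1), hb⟩ := by
        ext; simp; omega
      rw [e1, e2, he]

/-- A closed walk of length at most `m` in the shift graph of `(m + 1)`-tuples is even. -/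
lemma even_of_closed {m n : ℕ} {x : Tup m n} (p : (shift m n).Walk x x) (h : p.length ≤ m) :
    Even p.length := by
  obtain ⟨a, b, hab, hw⟩ := walk_window p
  obtain ⟨ha, hb, he⟩ := hw 0 (by omega)
  have := x.2.injective he
  rw [Fin.mk.injEq] at this
  exact ⟨a, by omega⟩

/-- Colourings of the shift graph of `(m + 2)`-tuples give colourings of the one of
`(m + 1)`-tuples with exponentially many colours. -/
lemma colorable_step {m n r : ℕ} (h : (shift (m + 1) n).Colorable r) :
    (shift m n).Colorable (2 ^ r) := by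
  classical
  obtain ⟨c⟩ := h
  have hcard : Fintype.card (Finset (Fin r)) = 2 ^ r := by
    rw [Fintype.card_finset, Fintype.card_fin]
  rw [← hcard]
  apply Coloring.colorable
  refine Coloring.mk (fun x => Finset.univ.filter (fun i => ∃ z : Tup (m + 1) n,
    Fin.init z.1 = x.1 ∧ c z = i)) ?_
  have key : ∀ x y : Tup m n, Sh x y →
      Finset.univ.filter (fun i => ∃ z : Tup (m + 1) n, Fin.init z.1 = x.1 ∧ c z = i) ≠
      Finset.univ.filter (fun i => ∃ z : Tup (m + 1) n, Fin.init z.1 = y.1 ∧ c z = i) := by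
    rintro x y ⟨z, hz, hx, hy⟩ heq
    have h1 : c ⟨z, hz⟩ ∈ Finset.univ.filter
        (fun i => ∃ z : Tup (m + 1) n, Fin.init z.1 = x.1 ∧ c z = i) := by
      rw [Finset.mem_filter]
      exact ⟨Finset.mem_univ _, ⟨z, hz⟩, hx, rfl⟩
    rw [heq, Finset.mem_filter] at h1
    obtain ⟨-, z', hz', hc⟩ := h1
    have hz2 : ∀ j : Fin (m + 1), z'.1 j.castSucc = z j.succ := by
      intro j
      have : Fin.init z'.1 j = Fin.tail z j := by rw [hz', hy]
      exact this
    have hsh : Sh (⟨z, hz⟩ : Tup (m + 1) n) z' := by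
      refine ⟨Fin.cons (z 0) z'.1, ?_, ?_, Fin.tail_cons _ _⟩
      · rw [Fin.strictMono_iff_lt_succ]
        intro i
        refine Fin.cases ?_ (fun j => ?_) i
        · rw [Fin.castSucc_zero, Fin.cons_zero, Fin.cons_succ]
          have := hz2 0
          rw [Fin.castSucc_zero] at this
          rw [this]
          exact hz (by simp)
        · rw [← Fin.succ_castSucc, Fin.cons_succ, Fin.cons_succ]
          exact z'.2 (by simp [Fin.lt_def])
      · funext i
        show Fin.cons (α := fun _ => Fin n) (z 0) z'.1 i.castSucc = z i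
        refine Fin.cases ?_ (fun j => ?_) i
        · rw [Fin.castSucc_zero, Fin.cons_zero]
        · rw [← Fin.succ_castSucc, Fin.cons_succ, hz2]
    exact c.valid (shift_adj.2 (Or.inl hsh)) hc.symm
  intro x y hxy
  rw [shift_adj] at hxy
  rcases hxy with h1 | h1
  · exact key x y h1
  · exact (key y x h1).symm

/-- The shift graph of `1`-tuples is complete. -/
lemma not_colorable_zero {n r : ℕ} (h : r < n) : ¬ (shift 0 n).Colorable r := by
  intro hc
  have emb : (⊤ : SimpleGraph (Fin n)).Colorable r := by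
    obtain ⟨c⟩ := hc
    have hm : ∀ a : Fin n, StrictMono (fun _ : Fin 1 => a) := by
      intro a i j hij
      exact absurd hij (by rw [Subsingleton.elim i j]; exact lt_irrefl _)
    have hs : ∀ a b : Fin n, a < b →
        Sh (⟨fun _ => a, hm a⟩ : Tup 0 n) ⟨fun _ => b, hm b⟩ := by
      intro a b hab
      refine ⟨![a, b], ?_, ?_, ?_⟩
      · rw [Fin.strictMono_iff_lt_succ]
        intro i
        have : i = 0 := Subsingleton.elim _ _
        subst this
        exact hab
      · funext i
        have : i = 0 := by ext; omega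
        subst this
        rfl
      · funext i
        have : i = 0 := by ext; omega
        subst this
        rfl
    refine ⟨Coloring.mk (fun a => c ⟨fun _ => a, hm a⟩) ?_⟩
    intro a b hab
    rw [top_adj] at hab
    rcases lt_or_gt_of_ne hab with h1 | h1
    · exact c.valid (shift_adj.2 (Or.inl (hs a b h1)))
    · exact c.valid (shift_adj.2 (Or.inr (hs b a h1)))
  have := emb.chromaticNumber_le
  rw [chromaticNumber_top, Fintype.card_fin] at this
  have h2 : n ≤ r := by exact_mod_cast this
  omega

/-- For every `m` and `r` some shift graph of `(m + 1)`-tuples is not `r`-colourable. -/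
lemma exists_not_colorable (m r : ℕ) : ∃ n : ℕ, ¬ (shift m n).Colorable r := by
  induction m generalizing r with
  | zero => exact ⟨r + 1, not_colorable_zero (Nat.lt_succ_self r)⟩
  | succ m ih =>
    obtain ⟨n, hn⟩ := ih (2 ^ r)
    exact ⟨n, fun h => hn (colorable_step h)⟩

end Pool.Agent.ADM
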